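import Mathlib

/-!
# A connected self 2-distance graph with a cut vertex
-/

set_option autoImplicit false

namespace Pool.Agent.Results.MP_9880a5_co.CutVertex

/-- The 2-distance graph: two vertices are adjacent when their distance in `G` is 2. -/
def twoDistance {V : Type} (G : SimpleGraph V) : SimpleGraph V where
  Adj x y := G.dist x y = 2
  symm := ⟨fun x y h => by rw [SimpleGraph.dist_comm]; exact h⟩
  loopless := ⟨fun x h => by rw [SimpleGraph.dist_self] at h; exact absurd h (by decide)⟩

/-- A graph is 2-connected if it has at least three vertices and remains connected after deleting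
any one vertex. -/
def TwoConnected {V : Type} (G : SimpleGraph V) : Prop :=
  3 ≤ Nat.card V ∧ ∀ v : V, (G.induce {w | w ≠ v}).Connected

theorem dist_two {V : Type} (G : SimpleGraph V) (x y : V) :
    G.dist x y = 2 ↔ x ≠ y ∧ ¬ G.Adj x y ∧ ∃ z, G.Adj x z ∧ G.Adj z y := by
  constructor
  · intro h
    refine ⟨?_, ?_, ?_⟩
    · rintro rfl
      rw [SimpleGraph.dist_self] at h
      exact absurd h (by decide)
    · intro hadj
      rw [← SimpleGraph.dist_eq_one_iff_adj] at hadj
      omega
    · have hr : G.Reachable x y := SimpleGraph.Reachable.of_dist_ne_zero (by omega)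
      obtain ⟨p, hp⟩ := hr.exists_walk_length_eq_dist
      rw [h] at hp
      cases p with
      | nil => exact absurd hp (by simp)
      | cons h1 q =>
        cases q with
        | nil => exact absurd hp (by simp)
        | cons h2 r =>
          cases r with
          | nil => exact ⟨_, h1, h2⟩
          | cons h3 s =>
            rw [SimpleGraph.Walk.length_cons, SimpleGraph.Walk.length_cons,
              SimpleGraph.Walk.length_cons] at hp
            omega
  · rintro ⟨hne, hnadj, z, h1, h2⟩
    have hw : G.dist x y ≤ 2 :=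
      SimpleGraph.dist_le (SimpleGraph.Walk.cons h1 (SimpleGraph.Walk.cons h2
        SimpleGraph.Walk.nil))
    have hr : G.Reachable x y := h1.reachable.trans h2.reachable
    have h0 : G.dist x y ≠ 0 := by
      intro h
      exact hne (hr.dist_eq_zero_iff.1 h)
    have h3 : G.dist x y ≠ 1 := by
      intro h
      exact hnadj (SimpleGraph.dist_eq_one_iff_adj.1 h)
    omega

/-- The adjacency relation of the example. -/
def adjB (x y : Fin 13) : Bool :=
  ([(0, 6), (0, 8), (1, 11), (2, 3), (3, 12), (4, 8), (4, 10), (4, 12), (5, 6), (5, 7), (7, 9),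
    (7, 11), (9, 11)] : List (Fin 13 × Fin 13)).any
      (fun e => (e.1 == x && e.2 == y) || (e.1 == y && e.2 == x))

/-- The example: a graph with 13 vertices and 13 edges. -/
def graph : SimpleGraph (Fin 13) where
  Adj x y := adjB x y = true
  symm := ⟨by decide⟩
  loopless := ⟨by decide⟩

instance : DecidableRel graph.Adj := fun x y => inferInstanceAs (Decidable (adjB x y = true))

theorem connected : graph.Connected := by
  have h : ∀ x : Fin 13, x = 0 ∨ (graph.Adj x
      ((![0, 11, 3, 12, 8, 6, 0, 5, 0, 7, 4, 7, 4] : Fin 13 → Fin 13) x) ∧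
      (![0, 5, 5, 4, 2, 2, 1, 3, 1, 4, 3, 4, 3] : Fin 13 → ℕ)
        ((![0, 11, 3, 12, 8, 6, 0, 5, 0, 7, 4, 7, 4] : Fin 13 → Fin 13) x) <
      (![0, 5, 5, 4, 2, 2, 1, 3, 1, 4, 3, 4, 3] : Fin 13 → ℕ) x) := by decide
  have key : ∀ (n : ℕ) (x : Fin 13),
      (![0, 5, 5, 4, 2, 2, 1, 3, 1, 4, 3, 4, 3] : Fin 13 → ℕ) x ≤ n → graph.Reachable x 0 := by
    intro n
    induction n with
    | zero =>
      intro x hx
      rcases h x with h | h
      · rw [h]
      · omega
    | succ n ih =>
      intro x hx
      rcases h x with h | h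
      · rw [h]
      · exact h.1.reachable.trans (ih _ (by omega))
  have : Nonempty (Fin 13) := ⟨0⟩
  exact ⟨fun x y => (key _ x le_rfl).trans (key _ y le_rfl).symm⟩

/-- The rotation `x ↦ x + 1` is an isomorphism onto the 2-distance graph. -/
def iso : graph ≃g twoDistance graph where
  toEquiv := Equiv.addRight 1
  map_rel_iff' := by
    intro a b
    show graph.dist (a + 1) (b + 1) = 2 ↔ graph.Adj a b
    rw [dist_two]
    revert a b
    decide +kernel

/-- There is a connected self 2-distance graph (with 13 vertices) that has a cut vertex: it is not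
2-connected. -/
theorem result : ∃ G : SimpleGraph (Fin 13), G.Connected ∧ Nonempty (G ≃g twoDistance G) ∧
    (∃ v : Fin 13, ¬ (G.induce {w | w ≠ v}).Connected) ∧ ¬ TwoConnected G := by
  have h3 : ¬ (graph.induce {w : Fin 13 | w ≠ 3}).Connected := by
    intro hc
    obtain ⟨p⟩ := hc.preconnected ⟨2, by decide⟩ ⟨0, by decide⟩
    cases p with
    | cons h q =>
      rename_i w
      have h1 : graph.Adj 2 w.1 := h
      have h2 : ∀ w : Fin 13, graph.Adj 2 w → w = 3 := by decide
      exact w.2 (h2 w.1 h1)
  exact ⟨graph, connected, ⟨iso⟩, ⟨3, h3⟩, fun h => h3 (h.2 3)⟩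

end Pool.Agent.Results.MP_9880a5_co.CutVertex
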